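import Pool.Agent.N139.AS.Stm2
import Pool.Agent.N67.NS.LEAV
import Pool.Agent.N169.NS.TT
import Pool.Agent.N303.KQ.FG

/-!
# AS/G1: a group with only trivial asymptotic homomorphisms (helper78, for helper139)
-/

set_option autoImplicit false

namespace Pool.Agent.N78.AS

open Filter Topology Matrix
open Pool.Agent.H698R3 Pool.Agent.H698R3.Amalg
open Pool.Agent.H698R4 (permU permU_coe)
open Pool.Agent.N44.NS (E3 Leav el)
open Pool.Agent.N139.AS (UU S_TRV S_G1)

noncomputable section

/-! ### permutation matrices -/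

section perm

variable {Z : Type} [Fintype Z] [DecidableEq Z]

theorem fro_perm (σ τ : Equiv.Perm Z) : fro ((permU σ).1 - (permU τ).1) =
    2 * ((Finset.univ.filter fun x => σ x ≠ τ x).card : ℝ) := by
  unfold fro
  rw [Finset.sum_comm]
  have h : ∀ y : Z, ∑ x, ‖((permU σ).1 - (permU τ).1) x y‖ ^ 2 = if σ y ≠ τ y then (2 : ℝ) else 0 := by
    intro y
    by_cases hy : σ y = τ y
    · rw [if_neg (not_not.2 hy)]
      refine Finset.sum_eq_zero fun x _ => ?_
      rw [Matrix.sub_apply, permU_coe, permU_coe, Jm_apply, Jm_apply, hy, sub_self, norm_zero]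
      norm_num
    · rw [if_pos hy]
      have h2 : ∀ x : Z, ‖((permU σ).1 - (permU τ).1) x y‖ ^ 2 =
          (if x = σ y then (1 : ℝ) else 0) + if x = τ y then (1 : ℝ) else 0 := by
        intro x
        rw [Matrix.sub_apply, permU_coe, permU_coe, Jm_apply, Jm_apply]
        by_cases h1 : x = σ y
        · have h3 : x ≠ τ y := fun h4 => hy (h1.symm.trans h4)
          rw [if_pos h1, if_neg h3, if_pos h1, if_neg h3]
          norm_num
        · rw [if_neg h1, if_neg h1]
          by_cases h3 : x = τ y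
          · rw [if_pos h3, if_pos h3]
            norm_num
          · rw [if_neg h3, if_neg h3]
            norm_num
      rw [Finset.sum_congr rfl fun x _ => h2 x, Finset.sum_add_distrib, Finset.sum_ite_eq',
        Finset.sum_ite_eq', if_pos (Finset.mem_univ _), if_pos (Finset.mem_univ _)]
      norm_num
  rw [Finset.sum_congr rfl fun y _ => h y, ← Finset.sum_filter, Finset.sum_const, nsmul_eq_mul,
    mul_comm]

theorem hs_perm (σ τ : Equiv.Perm Z) : hsDist (permU σ).1 (permU τ).1 =
    Real.sqrt (2 * Stab.hammingDist σ τ) := by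
  unfold hsDist Stab.hammingDist
  rw [← fro_eq_re, fro_perm, mul_div_assoc]

end perm

/-! ### the group -/

section triv

variable {G : Type} [Group G]

/-- all asymptotic homomorphisms to unitary groups are trivial -/
def Tr (G : Type) [Group G] : Prop :=
  ∀ (k : ℕ → ℕ) (φ : ∀ n, G → UU (k n)),
    (∀ a b : G, Tendsto (fun n => hsDist (φ n a * φ n b).1 (φ n (a * b)).1) atTop (𝓝 0)) →
    ∀ a : G, Tendsto (fun n => hsDist (φ n a).1 1) atTop (𝓝 0)

theorem perm_triv (hG : Tr G) (k : ℕ → ℕ) (φ : ∀ n, G → Equiv.Perm (Fin (k n)))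
    (hφ : ∀ a b : G, Tendsto (fun n => Stab.hammingDist (φ n a * φ n b) (φ n (a * b)))
      atTop (𝓝 0)) (a : G) : Tendsto (fun n => Stab.hammingDist (φ n a) 1) atTop (𝓝 0) := by
  have h := hG k (fun n g => permU (φ n g)) (fun a b => by
    have h1 : ∀ n, hsDist (permU (φ n a) * permU (φ n b)).1 (permU (φ n (a * b))).1 =
        Real.sqrt (2 * Stab.hammingDist (φ n a * φ n b) (φ n (a * b))) := by
      intro n
      rw [← map_mul, hs_perm]
    simp only [h1]
    have h2 := ((hφ a b).const_mul 2).sqrt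
    rwa [mul_zero, Real.sqrt_zero] at h2) a
  have h1 : ∀ n, Stab.hammingDist (φ n a) 1 = (hsDist (permU (φ n a)).1 1) ^ 2 / 2 := by
    intro n
    have h2 : (1 : Matrix (Fin (k n)) (Fin (k n)) ℂ) = (permU (1 : Equiv.Perm (Fin (k n)))).1 := by
      rw [map_one]
      rfl
    rw [h2, hs_perm, Real.sq_sqrt (by
      have := Stab.hammingDist_nonneg (φ n a) 1
      positivity)]
    ring
  simp only [h1]
  have h3 := (h.pow 2).div_const 2
  simpa using h3

theorem quot_triv (hG : Tr G) (Q : Type) [Group Q] [Finite Q] (ρ : G →* Q) (g : G) : ρ g = 1 := by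
  classical
  have := Fintype.ofFinite Q
  let e : Q ≃ Fin (Fintype.card Q) := Fintype.equivFin Q
  let θ : G →* Equiv.Perm (Fin (Fintype.card Q)) :=
    (e.permCongrHom.toMonoidHom.comp (MulAction.toPermHom Q Q)).comp ρ
  have h := perm_triv hG (fun _ => Fintype.card Q) (fun _ => θ) (fun a b => by
    simp only [map_mul, Stab.hammingDist_self]
    exact tendsto_const_nhds) g
  have h1 : Stab.hammingDist (θ g) 1 = 0 := tendsto_nhds_unique tendsto_const_nhds h
  unfold Stab.hammingDist at h1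
  have hc : (0 : ℝ) < Fintype.card (Fin (Fintype.card Q)) := by
    rw [Fintype.card_fin]
    exact_mod_cast Fintype.card_pos
  rw [div_eq_zero_iff, or_iff_left hc.ne', Nat.cast_eq_zero, Finset.card_eq_zero,
    Finset.filter_eq_empty_iff] at h1
  have h2 := h1 (Finset.mem_univ (e 1))
  rw [not_not] at h2
  have h3 : e (ρ g * e.symm (e 1)) = e 1 := h2
  rw [Equiv.symm_apply_apply, mul_one] at h3
  exact e.injective h3

theorem perm_stable (hG : Tr G) : PermutationStable G := by
  rw [permStable_iff]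
  intro k φ hφ
  exact ⟨fun n => 1, fun a => perm_triv hG k φ hφ a⟩

theorem hs_stable (hG : Tr G) : HilbertSchmidtStable G := by
  rw [hsStable_iff]
  intro k φ hφ
  exact ⟨fun n => 1, fun a => hG k φ hφ a⟩

end triv

open Pool.Agent.N67.NS (F X1 X2 Y1 Y2 Y1X1 Y2X2 Y1X2 Y2X1 sum_one) in
theorem leav257 : ∃ (A : Type) (_ : Ring A) (_ : Algebra (ZMod 257) A)
    (_ : Nontrivial A) (x1 x2 y1 y2 : A), Leav x1 x2 y1 y2 ∧
      Algebra.adjoin (ZMod 257) (Set.range ![x1, x2, y1, y2]) = ⊤ := by
  have h1 : X1 F ∈ Pool.Agent.N67.NS.A := Algebra.subset_adjoin (by simp)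
  have h2 : X2 F ∈ Pool.Agent.N67.NS.A := Algebra.subset_adjoin (by simp)
  have h3 : Y1 F ∈ Pool.Agent.N67.NS.A := Algebra.subset_adjoin (by simp)
  have h4 : Y2 F ∈ Pool.Agent.N67.NS.A := Algebra.subset_adjoin (by simp)
  refine ⟨Pool.Agent.N67.NS.A, inferInstance, inferInstance, inferInstance,
    ⟨X1 F, h1⟩, ⟨X2 F, h2⟩, ⟨Y1 F, h3⟩, ⟨Y2 F, h4⟩, ?_, ?_⟩
  · exact {
      r11 := Subtype.ext (Y1X1 F)
      r22 := Subtype.ext (Y2X2 F)
      r12 := Subtype.ext (Y1X2 F)
      r21 := Subtype.ext (Y2X1 F)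
      rs := Subtype.ext (sum_one F) }
  · apply Subalgebra.map_injective (f := Pool.Agent.N67.NS.A.val) Subtype.val_injective
    rw [AlgHom.map_adjoin, ← Set.range_comp, Algebra.map_top, Subalgebra.range_val]
    congr 1
    ext z
    simp only [Set.mem_range, Set.mem_insert_iff, Set.mem_singleton_iff, Function.comp_apply]
    constructor
    · rintro ⟨i, rfl⟩
      fin_cases i <;> simp
    · rintro (h | h | h | h)
      · exact ⟨0, h.symm⟩
      · exact ⟨1, h.symm⟩
      · exact ⟨2, h.symm⟩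
      · exact ⟨3, h.symm⟩

theorem t_G1 (h : S_TRV) : S_G1 := by
  obtain ⟨A, _, _, _, x1, x2, y1, y2, hR, hg⟩ := leav257
  have hK : 256 ≤ Fintype.card (ZMod 257) := by
    rw [ZMod.card]
    norm_num
  have hG : Tr (E3 A) := fun k φ hφ => h (ZMod 257) A x1 x2 y1 y2 hK hR hg k φ hφ
  have hT := Pool.Agent.N169.NS.t_TT (ZMod 257) hK A _ hg
  refine ⟨E3 A, inferInstance, ?_, ?_, perm_stable hG, hs_stable hG,
    fun Q _ _ ρ g => quot_triv hG Q ρ g⟩
  · obtain ⟨k, γ, hγ⟩ := Pool.Agent.N303.KQ.exists_free hT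
    exact Group.fg_of_surjective hγ
  · have h01 : (0 : Fin 3) ≠ 1 := by decide
    refine ⟨MonoidHom.mk' (fun c => Pool.Agent.N169.NS.eE 0 1 h01
      (algebraMap (ZMod 257) A c.toAdd)) (fun a b => ?_), ?_⟩
    · rw [toAdd_mul, map_add, Pool.Agent.N169.NS.eE_add]
    · rw [injective_iff_map_eq_one]
      intro c hc
      have h2 : (1 + Matrix.single 0 1 (algebraMap (ZMod 257) A c.toAdd) :
          Matrix (Fin 3) (Fin 3) A) = 1 := congrArg (fun z : E3 A =>
            ((z : (Matrix (Fin 3) (Fin 3) A)ˣ) : Matrix (Fin 3) (Fin 3) A)) hc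
      have h3 := congrFun (congrFun h2 0) 1
      rw [Matrix.add_apply, Matrix.single_apply_same, Matrix.one_apply_ne h01, zero_add] at h3
      have h4 : c.toAdd = 0 := (algebraMap (ZMod 257) A).injective (by rw [h3, map_zero])
      exact Multiplicative.toAdd.injective h4

end

end Pool.Agent.N78.AS
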